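import Pool.Agent.R696.N3.Zorn
set_option autoImplicit false

/-! A ten parameter family of triples of Zorn matrices. -/

namespace Pool.Agent.R696.N3
open Pool.Agent.Helper895.Alt

noncomputable section

variable {K : Type*} [CommRing K]

/-- the family -/
def fz (p : Fin 10 → K) : Fin 3 → Zn K
  | 0 => ⟨p 0, 0, 0, 0, 0, 0, 0, p 1⟩
  | 1 => ⟨p 2, 1, 0, 0, p 4, 0, 0, p 3⟩
  | 2 => ⟨p 5, p 7, 1, 0, p 8, p 9, 0, p 6⟩

/-- the invariants of the family -/
def iz (p : Fin 10 → K) : Fin 10 → K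
  | 0 => p 0 + p 1
  | 1 => p 2 + p 3
  | 2 => p 5 + p 6
  | 3 => p 0 * p 1
  | 4 => p 2 * p 3 - p 4
  | 5 => p 5 * p 6 - p 7 * p 8 - p 9
  | 6 => p 0 * p 3 + p 1 * p 2
  | 7 => p 0 * p 6 + p 1 * p 5
  | 8 => p 2 * p 6 + p 3 * p 5 - p 8 - p 7 * p 4
  | 9 => p 0 * p 2 * p 6 + p 1 * p 3 * p 5 - p 0 * p 8 - p 1 * p 4 * p 7

/-- multiples of the associator -/
def yz (p : Fin 10 → K) (t : K) : Zn K := ⟨0, 0, 0, p 4 * p 9 * t, 0, 0, t, 0⟩

theorem opX_fz (p : Fin 10 → K) (i : Fin 10) (t : K) :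
    opX (fz p) i (yz p t) = yz p (iz p i * t) := by
  fin_cases i <;>
  · simp only [opX, T, N, U, tau, fz, yz, iz, Zn.mul_def, Zn.add_def, Zn.mk.injEq]
    refine ⟨?_, ?_, ?_, ?_, ?_, ?_, ?_, ?_⟩ <;> ring

theorem asc_fz (p : Fin 10 → K) :
    asc (fz p 0) (fz p 1) (fz p 2) = yz p (p 0 - p 1) := by
  simp only [asc, fz, yz, Zn.mul_def, Zn.sub_def, Zn.mk.injEq]
  refine ⟨?_, ?_, ?_, ?_, ?_, ?_, ?_, ?_⟩ <;> ring

theorem asc_fz' (p : Fin 10 → K) :
    asc (fz p 0) (fz p 1) (fz p 2) = (p 0 - p 1) • yz p 1 := by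
  rw [asc_fz]
  simp only [yz, Zn.smul_def, smul_eq_mul, Zn.mk.injEq]
  refine ⟨?_, ?_, ?_, ?_, ?_, ?_, ?_, ?_⟩ <;> ring

/-- linear independence -/
theorem indep_fz [IsDomain K] (p : Fin 10 → K) (h0 : p 0 - p 1 ≠ 0) (h4 : p 4 ≠ 0) (h9 : p 9 ≠ 0)
    (t : Fin 8 → K) (h : ∑ s, Ls (fz p) s (yz p (t s)) = 0) (s : Fin 8) : t s = 0 := by
  simp only [Fin.sum_univ_eight, Ls, fz, yz, Zn.mul_def, Zn.add_def, Zn.zero_def,
    Zn.mk.injEq] at h
  obtain ⟨ea, eu1, eu2, eu3, ev1, ev2, ev3, eb⟩ := h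
  have t7 : t 7 = 0 := by
    have : (p 0 - p 1) * p 4 * p 9 * t 7 = 0 := by linear_combination ea + eb
    simpa [h0, h4, h9] using this
  rw [t7] at ea eu1 eu2 eu3 ev1 ev2 ev3 eb
  have t6 : t 6 = 0 := by
    have : p 4 * p 9 * t 6 = 0 := by linear_combination ea
    simpa [h4, h9] using this
  rw [t6] at ea eu1 eu2 eu3 ev1 ev2 ev3 eb
  have t5 : t 5 = 0 := by
    have : (p 0 - p 1) * p 4 * p 9 * t 5 = 0 := by linear_combination -(p 4) * eu1 - ev1
    simpa [h0, h4, h9] using this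
  rw [t5] at ea eu1 eu2 eu3 ev1 ev2 ev3 eb
  have t3 : t 3 = 0 := by
    have : p 9 * t 3 = 0 := by linear_combination -eu1
    simpa [h9] using this
  rw [t3] at ea eu1 eu2 eu3 ev1 ev2 ev3 eb
  have t4 : t 4 = 0 := by
    have : (p 0 - p 1) * p 4 * p 9 * t 4 = 0 := by linear_combination (p 9) * eu2 + ev2
    simpa [h0, h4, h9] using this
  rw [t4] at ea eu1 eu2 eu3 ev1 ev2 ev3 eb
  have t2 : t 2 = 0 := by
    have : p 4 * t 2 = 0 := by linear_combination eu2
    simpa [h4] using this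
  rw [t2] at ea eu1 eu2 eu3 ev1 ev2 ev3 eb
  have t1 : t 1 = 0 := by
    have : (p 0 - p 1) * p 4 * p 9 * t 1 = 0 := by linear_combination eu3 - (p 4) * (p 9) * ev3
    simpa [h0, h4, h9] using this
  rw [t1] at ea eu1 eu2 eu3 ev1 ev2 ev3 eb
  have t0 : t 0 = 0 := by linear_combination ev3
  fin_cases s <;> assumption

/-- nondegeneracy of the trace form on the eight vectors -/
theorem trace_fz [IsDomain K] (p : Fin 10 → K) (h0 : p 0 - p 1 ≠ 0) (h4 : p 4 ≠ 0) (h9 : p 9 ≠ 0)
    (x : Zn K) (h : ∀ s, Zn.tr (x * Ls (fz p) s (yz p 1)) = 0) : x = 0 := by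
  have e0 := h 0
  have e1 := h 1
  have e2 := h 2
  have e3 := h 3
  have e4 := h 4
  have e5 := h 5
  have e6 := h 6
  have e7 := h 7
  clear h
  simp only [Ls, fz, yz, Zn.mul_def, Zn.tr] at e0 e1 e2 e3 e4 e5 e6 e7
  obtain ⟨a, u1, u2, u3, v1, v2, v3, b⟩ := x
  simp only at e0 e1 e2 e3 e4 e5 e6 e7
  have hv3 : v3 = 0 := by
    have : (p 0 - p 1) * p 4 * p 9 * v3 = 0 := by linear_combination e1 - p 1 * e0
    simpa [h0, h4, h9] using this
  subst hv3
  have hu3 : u3 = 0 := by linear_combination e0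
  subst hu3
  have hv2 : v2 = 0 := by
    have : (p 0 - p 1) * p 4 * v2 = 0 := by linear_combination e4 - p 1 * e2
    simpa [h0, h4, h9] using this
  subst hv2
  have hu2 : u2 = 0 := by
    have : p 4 * p 9 * u2 = 0 := by linear_combination -e2
    simpa [h0, h4, h9] using this
  subst hu2
  have hv1 : v1 = 0 := by
    have : (p 0 - p 1) * p 9 * v1 = 0 := by linear_combination -e5 + p 1 * e3
    simpa [h0, h4, h9] using this
  subst hv1
  have hu1 : u1 = 0 := by
    have : p 4 * p 9 * u1 = 0 := by linear_combination e3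
    simpa [h0, h4, h9] using this
  subst hu1
  have ha : a = 0 := by
    have : (p 0 - p 1) * p 4 * p 9 * a = 0 := by linear_combination e7 - p 1 * e6
    simpa [h0, h4, h9] using this
  subst ha
  have hb : b = 0 := by
    have : p 4 * p 9 * b = 0 := by linear_combination -e6
    simpa [h0, h4, h9] using this
  subst hb
  rfl

/-- surjectivity of the invariants -/
theorem solve_iz {L : Type*} [Field L] [IsAlgClosed L] (y : Fin 10 → L)
    (h1 : y 0 ^ 2 - 4 * y 3 ≠ 0)
    (h2 : -(y 3) * y 1 ^ 2 + y 0 * y 1 * y 6 - y 6 ^ 2 - y 4 * (y 0 ^ 2 - 4 * y 3) ≠ 0) :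
    ∃ p : Fin 10 → L, iz p = y := by
  obtain ⟨a, ha⟩ : ∃ a : L, a ^ 2 - y 0 * a + y 3 = 0 := by
    have hd : (Polynomial.X ^ 2 - Polynomial.C (y 0) * Polynomial.X + Polynomial.C (y 3)).degree ≠ 0 := by
      have : (Polynomial.X ^ 2 - Polynomial.C (y 0) * Polynomial.X + Polynomial.C (y 3)).degree = 2 := by
        compute_degree!
      rw [this]; norm_num
    obtain ⟨a, ha⟩ := IsAlgClosed.exists_root _ hd
    refine ⟨a, ?_⟩
    simpa [Polynomial.IsRoot] using ha
  set a' := y 0 - a with ha'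
  have hprod : a * a' = y 3 := by rw [ha']; linear_combination -ha
  have hd : a - a' ≠ 0 := by
    intro h
    apply h1
    have : a = a' := sub_eq_zero.mp h
    have h3 : y 0 = a + a' := by rw [ha']; ring
    rw [h3, ← hprod]
    linear_combination (a - a') * h
  have hy0 : a + a' = y 0 := by rw [ha']; ring
  set b := (a * y 1 - y 6) / (a - a') with hb
  set b' := (y 6 - a' * y 1) / (a - a') with hb'
  set c := (a * y 2 - y 7) / (a - a') with hc
  set c' := (y 7 - a' * y 2) / (a - a') with hc'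
  have hbb : b + b' = y 1 := by rw [hb, hb']; field_simp; ring
  have hab : a * b' + a' * b = y 6 := by rw [hb, hb']; field_simp; ring
  have hcc : c + c' = y 2 := by rw [hc, hc']; field_simp; ring
  have hac : a * c' + a' * c = y 7 := by rw [hc, hc']; field_simp; ring
  set v := b * b' - y 4 with hv
  have hv0 : v ≠ 0 := by
    intro h
    apply h2
    have e1 : y 4 = b * b' := by linear_combination -h + hv
    rw [e1, ← hbb, ← hab, ← hprod, ← hy0]
    ring
  set M := b * c' + b' * c - y 8 with hM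
  set N' := a * b * c' + a' * b' * c - y 9 with hN
  -- p8 + p7 v = M, a p8 + a' v p7 = N'
  set z := (a * M - N') / (a - a') with hz
  set p8 := (N' - a' * M) / (a - a') with hp8
  set p7 := z / v with hp7
  have hp7v : p7 * v = z := by rw [hp7]; field_simp
  have e8 : p8 + z = M := by rw [hz, hp8]; field_simp; ring
  have e9 : a * p8 + a' * z = N' := by rw [hz, hp8]; field_simp; ring
  refine ⟨fun i => match i with
    | 0 => a | 1 => a' | 2 => b | 3 => b' | 4 => v | 5 => c | 6 => c' | 7 => p7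
    | 8 => p8 | 9 => c * c' - p7 * p8 - y 5, ?_⟩
  funext i
  fin_cases i
  · exact hy0
  · exact hbb
  · exact hcc
  · exact hprod
  · show b * b' - v = y 4
    rw [hv]; ring
  · show c * c' - p7 * p8 - (c * c' - p7 * p8 - y 5) = y 5
    ring
  · exact hab
  · exact hac
  · show b * c' + b' * c - p8 - p7 * v = y 8
    rw [hp7v]; linear_combination -e8 + hM
  · show a * b * c' + a' * b' * c - a * p8 - a' * v * p7 = y 9
    have : a' * v * p7 = a' * z := by rw [← hp7v]; ring
    rw [this]; linear_combination -e9 + hN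

/-- the ten invariants are algebraically independent -/
theorem alg_indep_iz {F : Type*} [Field F] {L : Type*} [Field L] [IsAlgClosed L] [Algebra F L]
    (r : MvPolynomial (Fin 10) F)
    (h : ∀ p : Fin 10 → L, p 0 - p 1 ≠ 0 → p 4 ≠ 0 → p 9 ≠ 0 → MvPolynomial.aeval (iz p) r = 0) :
    r = 0 := by
  haveI : Infinite L := IsAlgClosed.instInfinite
  have h' : ∀ p : Fin 10 → L, MvPolynomial.aeval (iz p) r = 0 := by
    let izp : Fin 10 → MvPolynomial (Fin 10) L := iz MvPolynomial.X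
    have hev : ∀ p : Fin 10 → L, MvPolynomial.eval p (MvPolynomial.aeval izp r)
        = MvPolynomial.aeval (iz p) r := by
      intro p
      have h1 : (MvPolynomial.aeval (iz p) : MvPolynomial (Fin 10) F →ₐ[F] L)
          = ((MvPolynomial.aeval p : MvPolynomial (Fin 10) L →ₐ[L] L).restrictScalars F).comp
            (MvPolynomial.aeval izp) := by
        apply MvPolynomial.algHom_ext
        intro i
        simp only [AlgHom.comp_apply, MvPolynomial.aeval_X, AlgHom.restrictScalars_apply]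
        fin_cases i <;> simp [izp, iz]
      rw [h1]
      simp [MvPolynomial.coe_aeval_eq_eval]
    have h2 : MvPolynomial.aeval izp r
        * ((MvPolynomial.X 0 - MvPolynomial.X 1) * MvPolynomial.X 4 * MvPolynomial.X 9) = 0 := by
      apply MvPolynomial.funext
      intro p
      rw [map_mul, hev, map_zero]
      by_cases h0 : p 0 - p 1 = 0
      · simp [h0]
      by_cases h4 : p 4 = 0
      · simp [h4]
      by_cases h9 : p 9 = 0
      · simp [h9]
      rw [h p h0 h4 h9, zero_mul]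
    have h3 : ((MvPolynomial.X 0 - MvPolynomial.X 1) * MvPolynomial.X 4 * MvPolynomial.X 9 :
        MvPolynomial (Fin 10) L) ≠ 0 := by
      intro h0
      have := congrArg (MvPolynomial.eval (fun i : Fin 10 => if i = 1 then (0 : L) else 1)) h0
      simp at this
    have h4 := (mul_eq_zero.mp h2).resolve_right h3
    intro p
    rw [← hev, h4, map_zero]
  have hinj : Function.Injective (MvPolynomial.map (σ := Fin 10) (algebraMap F L)) :=
    MvPolynomial.map_injective _ (algebraMap F L).injective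
  apply hinj
  rw [map_zero]
  let X : Fin 10 → MvPolynomial (Fin 10) L := MvPolynomial.X
  let D1 : MvPolynomial (Fin 10) L := X 0 ^ 2 - 4 * X 3
  let D2 : MvPolynomial (Fin 10) L := -(X 3) * X 1 ^ 2 + X 0 * X 1 * X 6 - X 6 ^ 2 - X 4 * (X 0 ^ 2 - 4 * X 3)
  have h2 : MvPolynomial.map (algebraMap F L) r * (D1 * D2) = 0 := by
    apply MvPolynomial.funext
    intro y
    rw [map_mul, map_mul, map_zero, MvPolynomial.eval_map]
    by_cases h1 : y 0 ^ 2 - 4 * y 3 = 0
    · have : MvPolynomial.eval y D1 = 0 := by simpa [D1, X] using h1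
      rw [this]; ring
    by_cases h2 : -(y 3) * y 1 ^ 2 + y 0 * y 1 * y 6 - y 6 ^ 2 - y 4 * (y 0 ^ 2 - 4 * y 3) = 0
    · have : MvPolynomial.eval y D2 = 0 := by simpa [D2, X] using h2
      rw [this]; ring
    obtain ⟨p, hp⟩ := solve_iz y h1 h2
    have := h' p
    rw [hp, MvPolynomial.aeval_def] at this
    rw [this, zero_mul]
  have h3 : D1 * D2 ≠ 0 := by
    intro h0
    have := congrArg (MvPolynomial.eval (fun i : Fin 10 => if i = 0 ∨ i = 6 then (1 : L) else 0)) h0
    simp [D1, D2, X] at this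
  exact (mul_eq_zero.mp h2).resolve_right h3

end

end Pool.Agent.R696.N3
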