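import Pool.Agent.R696.N3.Fam
set_option autoImplicit false

/-! The structure of alternative algebras with three generators, over a field. -/

namespace Pool.Agent.R696.N3
open Pool.Agent.Helper895.Alt

noncomputable section

variable (F : Type*) [Field F] {B : Type*} [NonUnitalNonAssocRing B] [AltRing B] [Module F B]
  [IsScalarTower F B B] [SMulCommClass F B B] (e : Fin 3 → B)

omit [AltRing B] [IsScalarTower F B B] [SMulCommClass F B B] in
/-- `B` is generated by the letters as an algebra -/
def GenF : Prop :=
  ∀ Q : Submodule F B, (∀ i, e i ∈ Q) → (∀ x ∈ Q, ∀ y ∈ Q, x * y ∈ Q) → ∀ x, x ∈ Q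

/-- the associator ideal -/
def PF : Submodule F B := Submodule.span F (PP e (RW e) : Set B)

variable {F e}

theorem PF_left (l : Fin 3) {p : B} (hp : p ∈ PF F e) : e l * p ∈ PF F e := by
  induction hp using Submodule.span_induction with
  | mem x hx => exact Submodule.subset_span (stable_RW.left l hx)
  | zero => rw [mul_zero]; exact zero_mem _
  | add x y _ _ hx hy => rw [mul_add]; exact add_mem hx hy
  | smul a x _ hx => rw [mul_smul_comm]; exact Submodule.smul_mem _ _ hx

theorem PF_right (l : Fin 3) {p : B} (hp : p ∈ PF F e) : p * e l ∈ PF F e := by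
  induction hp using Submodule.span_induction with
  | mem x hx => exact Submodule.subset_span (stable_RW.right l hx)
  | zero => rw [zero_mul]; exact zero_mem _
  | add x y _ _ hx hy => rw [add_mul]; exact add_mem hx hy
  | smul a x _ hx => rw [smul_mul_assoc]; exact Submodule.smul_mem _ _ hx

theorem PF_ideal (hg : GenF F e) (x : B) : ∀ p ∈ PF F e, x * p ∈ PF F e ∧ p * x ∈ PF F e := by
  let Q : Submodule F B :=
    { carrier := {x | ∀ p ∈ PF F e, x * p ∈ PF F e ∧ p * x ∈ PF F e}
      zero_mem' := fun p _ => by rw [zero_mul, mul_zero]; exact ⟨zero_mem _, zero_mem _⟩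
      add_mem' := fun {a b} ha hb p hp => by
        rw [add_mul, mul_add]
        exact ⟨add_mem (ha p hp).1 (hb p hp).1, add_mem (ha p hp).2 (hb p hp).2⟩
      smul_mem' := fun c a ha p hp => by
        rw [smul_mul_assoc, mul_smul_comm]
        exact ⟨Submodule.smul_mem _ _ (ha p hp).1, Submodule.smul_mem _ _ (ha p hp).2⟩ }
  have hT : ∀ a ∈ Q, ∀ p ∈ PF F e, T a p ∈ PF F e := fun a ha p hp =>
    add_mem (ha p hp).1 (ha p hp).2
  refine hg Q (fun i p hp => ⟨PF_left i hp, PF_right i hp⟩) ?_ x
  intro a ha b hb p hp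
  constructor
  · rw [mul_mul_l]
    refine add_mem (hb _ (ha p hp).1).1 (sub_mem (hT a ha _ (hb p hp).1) (hb _ (hT a ha p hp)).1)
  · rw [mul_mul_r]
    refine add_mem (ha _ (hb p hp).2).2 (sub_mem (hT b hb _ (ha p hp).2) (ha _ (hT b hb p hp)).2)

omit [AltRing B] in
theorem GenF.words (hg : GenF F e) (x : B) : x ∈ Submodule.span F {x | ∃ n, Wd e n x} := by
  refine hg (Submodule.span F {x | ∃ n, Wd e n x})
    (fun i => Submodule.subset_span ⟨1, Wd.l i⟩) ?_ x
  intro x hx y hy
  induction hx using Submodule.span_induction with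
  | mem x hx =>
    obtain ⟨a, ha⟩ := hx
    induction hy using Submodule.span_induction with
    | mem y hy =>
      obtain ⟨b, hb⟩ := hy
      exact Submodule.subset_span ⟨a + b, ha.m hb⟩
    | zero => rw [mul_zero]; exact zero_mem _
    | add y y' _ _ h1 h2 => rw [mul_add]; exact add_mem h1 h2
    | smul c y _ h1 => rw [mul_smul_comm]; exact Submodule.smul_mem _ _ h1
  | zero => rw [zero_mul]; exact zero_mem _
  | add x x' _ _ h1 h2 => rw [add_mul]; exact add_mem h1 h2
  | smul c x _ h1 => rw [smul_mul_assoc]; exact Submodule.smul_mem _ _ h1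

omit [AltRing B] in
theorem asc_smul1 (c : F) (x y z : B) : asc (c • x) y z = c • asc x y z := by
  unfold asc; simp only [smul_mul_assoc, smul_sub]
omit [AltRing B] in
theorem asc_smul2 (c : F) (x y z : B) : asc x (c • y) z = c • asc x y z := by
  unfold asc; simp only [smul_mul_assoc, mul_smul_comm, smul_sub]
omit [AltRing B] in
theorem asc_smul3 (c : F) (x y z : B) : asc x y (c • z) = c • asc x y z := by
  unfold asc; simp only [mul_smul_comm, smul_sub]

/-- all associators lie in `PF` -/
theorem artinF (hg : GenF F e) (x y z : B) : asc x y z ∈ PF F e := by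
  have hI : IsId (PF F e).toAddSubgroup := fun x p hp => PF_ideal hg x p hp
  have hw : asc (e 0) (e 1) (e 2) ∈ (PF F e).toAddSubgroup := by
    have h1 : asc (e 0) (e 1) (e 2) ∈ RW e := ⟨1, wmap_one⟩
    have h2 : asc (e 0) (e 1) (e 2) ∈ PP e (RW e) := AddSubgroup.subset_closure ⟨0, _, h1, rfl⟩
    exact Submodule.subset_span h2
  have hx := hg.words x
  have hy := hg.words y
  have hz := hg.words z
  induction hx using Submodule.span_induction with
  | mem x hx =>
    obtain ⟨a, ha⟩ := hx
    induction hy using Submodule.span_induction with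
    | mem y hy =>
      obtain ⟨b, hb⟩ := hy
      induction hz using Submodule.span_induction with
      | mem z hz =>
        obtain ⟨c, hc⟩ := hz
        exact artin_words hI hw _ _ _ _ _ _ _ ha hb hc rfl
      | zero => unfold asc; simp
      | add y y' _ _ h1 h2 => rw [asc_add3]; exact add_mem h1 h2
      | smul c y _ h1 => rw [asc_smul3]; exact Submodule.smul_mem _ _ h1
    | zero => unfold asc; simp
    | add y y' _ _ h1 h2 => rw [asc_add2]; exact add_mem h1 h2
    | smul c y _ h1 => rw [asc_smul2]; exact Submodule.smul_mem _ _ h1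
  | zero => unfold asc; simp
  | add x x' _ _ h1 h2 => rw [asc_add1]; exact add_mem h1 h2
  | smul c x _ h1 => rw [asc_smul1]; exact Submodule.smul_mem _ _ h1

/-! ### right-normed words -/

/-- right-normed words -/
def rn (e : Fin 3 → B) : List (Fin 3) → B
  | [] => 0
  | [i] => e i
  | i :: j :: l => e i * rn e (j :: l)

omit [AltRing B] in
theorem rn_cons (i : Fin 3) (l : List (Fin 3)) (hl : l ≠ []) : rn e (i :: l) = e i * rn e l := by
  cases l with
  | nil => exact absurd rfl hl
  | cons j l => rfl

theorem rn_mul (hg : GenF F e) (l l' : List (Fin 3)) (hl : l ≠ []) (hl' : l' ≠ []) :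
    rn e l * rn e l' - rn e (l ++ l') ∈ PF F e := by
  induction l with
  | nil => exact absurd rfl hl
  | cons i l ih =>
    by_cases h : l = []
    · subst h
      rw [List.singleton_append, rn_cons i l' hl']
      show e i * rn e l' - e i * rn e l' ∈ _
      rw [sub_self]; exact zero_mem _
    · rw [List.cons_append, rn_cons i l h, rn_cons i (l ++ l') (by simp [h])]
      have h1 : e i * rn e l * rn e l' - e i * rn e (l ++ l')
          = asc (e i) (rn e l) (rn e l') + e i * (rn e l * rn e l' - rn e (l ++ l')) := by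
        unfold asc; rw [mul_sub]; abel
      rw [h1]
      exact add_mem (artinF hg _ _ _) (PF_left i (ih h))

/-- every element is a combination of right-normed words modulo the associator ideal -/
theorem mem_rn (hg : GenF F e) (x : B) :
    x ∈ Submodule.span F (rn e '' {l | l ≠ []}) ⊔ PF F e := by
  refine hg (Submodule.span F (rn e '' {l | l ≠ []}) ⊔ PF F e) ?_ ?_ x
  · intro i
    exact Submodule.mem_sup_left (Submodule.subset_span ⟨[i], by simp, rfl⟩)
  · intro x hx y hy
    obtain ⟨s, hs, p, hp, rfl⟩ := Submodule.mem_sup.mp hx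
    obtain ⟨t, ht, q, hq, rfl⟩ := Submodule.mem_sup.mp hy
    rw [add_mul, mul_add]
    refine add_mem (add_mem ?_ (Submodule.mem_sup_right (PF_ideal hg s q hq).1))
      (Submodule.mem_sup_right (PF_ideal hg _ p hp).2)
    clear hx hy
    induction hs using Submodule.span_induction with
    | mem s hs =>
      obtain ⟨l, hl, rfl⟩ := hs
      induction ht using Submodule.span_induction with
      | mem t ht =>
        obtain ⟨l', hl', rfl⟩ := ht
        have h := rn_mul hg l l' hl hl'
        have h1 : rn e l * rn e l' = rn e (l ++ l') + (rn e l * rn e l' - rn e (l ++ l')) := by abel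
        rw [h1]
        refine add_mem (Submodule.mem_sup_left (Submodule.subset_span ⟨l ++ l', ?_, rfl⟩))
          (Submodule.mem_sup_right h)
        have : l ≠ [] := hl
        simp [this]
      | zero => rw [mul_zero]; exact zero_mem _
      | add y y' _ _ h1 h2 => rw [mul_add]; exact add_mem h1 h2
      | smul c y _ h1 => rw [mul_smul_comm]; exact Submodule.smul_mem _ _ h1
    | zero => rw [zero_mul]; exact zero_mem _
    | add x x' _ _ h1 h2 => rw [add_mul]; exact add_mem h1 h2
    | smul c x _ h1 => rw [smul_mul_assoc]; exact Submodule.smul_mem _ _ h1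

variable (F) in
/-- the free associative algebra -/
abbrev FAF := MonoidAlgebra F (FreeMonoid (Fin 3))

variable (F) in
/-- its letters -/
def letF (i : Fin 3) : FAF F := MonoidAlgebra.single (FreeMonoid.of i) 1

omit [AltRing B] in
theorem asc_assoc {Q : Type*} [NonUnitalRing Q] (x y z : Q) : asc x y z = 0 := by
  unfold asc; rw [mul_assoc, sub_self]

omit [IsScalarTower F B B] [SMulCommClass F B B] in
theorem wmap_assoc {Q : Type*} [NonUnitalRing Q] (φ : B →ₙ+* Q) (r : MvPolynomial (Fin 10) ℤ) :
    φ (wmap e r) = 0 := by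
  induction r using MvPolynomial.induction_on with
  | C a =>
    have h1 : (MvPolynomial.C a : MvPolynomial (Fin 10) ℤ) = a • 1 := by
      rw [MvPolynomial.C_eq_smul_one]
    rw [h1, map_zsmul, map_zsmul, wmap_one, map_asc, asc_assoc, smul_zero]
  | add x y hx hy => rw [map_add, map_add, hx, hy, add_zero]
  | mul_X q i hq =>
    rw [wmap_mul_X, map_opX, hq]
    have := opX_add (e := fun j => φ (e j)) i (0 : Q) 0
    rw [add_zero] at this
    exact left_eq_add.mp this

theorem Ls_zero' {Q : Type*} [NonUnitalNonAssocRing Q] (e : Fin 3 → Q) (s : Fin 8) :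
    Ls e s (0 : Q) = 0 := by
  fin_cases s <;> simp [Ls]

theorem alpha_PF (α : B →ₙₐ[F] FAF F) {p : B} (hp : p ∈ PF F e) : α p = 0 := by
  induction hp using Submodule.span_induction with
  | mem x hx =>
    obtain ⟨r, rfl⟩ := PP_nf hx
    rw [map_sum]
    apply Finset.sum_eq_zero
    intro s _
    have h1 := wmap_assoc (e := e) (NonUnitalRingHomClass.toNonUnitalRingHom α) (r s)
    have h2 := map_Ls (NonUnitalRingHomClass.toNonUnitalRingHom α) e s (wmap e (r s))
    rw [h1, Ls_zero'] at h2
    exact h2
  | zero => exact map_zero α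
  | add x y _ _ hx hy => rw [map_add, hx, hy, add_zero]
  | smul a x _ hx => rw [map_smul, hx, smul_zero]

theorem alpha_rn (α : B →ₙₐ[F] FAF F) (hα : ∀ i, α (e i) = letF F i) (l : List (Fin 3))
    (hl : l ≠ []) : α (rn e l) = MonoidAlgebra.single (FreeMonoid.ofList l) 1 := by
  induction l with
  | nil => exact absurd rfl hl
  | cons i l ih =>
    by_cases h : l = []
    · subst h
      exact hα i
    · rw [rn_cons i l h, map_mul, hα, ih h, letF, MonoidAlgebra.single_mul_single, one_mul]
      rfl

/-- the kernel of the map to the free associative algebra is the associator ideal -/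
theorem ker_alpha (hg : GenF F e) (α : B →ₙₐ[F] FAF F) (hα : ∀ i, α (e i) = letF F i) {f : B}
    (hf : α f = 0) : f ∈ PF F e := by
  obtain ⟨s, hs, p, hp, rfl⟩ := Submodule.mem_sup.mp (mem_rn hg f)
  rw [map_add, alpha_PF α hp, add_zero] at hf
  have h1 : s = 0 := by
    rw [Finsupp.mem_span_image_iff_linearCombination] at hs
    obtain ⟨c, hc, rfl⟩ := hs
    have h2 : c = 0 := by
      have h3 : α (Finsupp.linearCombination F (rn e) c)
          = MonoidAlgebra.ofCoeff (c.mapDomain FreeMonoid.ofList) := by
        rw [Finsupp.linearCombination_apply, Finsupp.sum, map_sum, Finsupp.mapDomain, Finsupp.sum,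
          MonoidAlgebra.ofCoeff_sum]
        refine Finset.sum_congr rfl fun l hl => ?_
        have hl' : l ≠ [] := hc hl
        rw [map_smul, alpha_rn α hα l hl', MonoidAlgebra.smul_single', mul_one]
        rfl
      rw [hf] at h3
      have h4 : c.mapDomain FreeMonoid.ofList = 0 := by
        have := h3.symm
        rwa [MonoidAlgebra.ofCoeff_eq_zero] at this
      exact Finsupp.mapDomain_injective (FreeMonoid.ofList).injective (by rw [h4]; simp)
    rw [h2, map_zero]
  rw [h1, zero_add]
  exact hp

/-! ### the linear version of the normal form -/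

variable (F e) in
/-- `r ↦ r w` over `F` -/
def wmF : MvPolynomial (Fin 10) F →ₗ[F] B :=
  (MvPolynomial.basisMonomials (Fin 10) F).constr F (fun m => wmap e (MvPolynomial.monomial m 1))

omit [IsScalarTower F B B] [SMulCommClass F B B] in
theorem wmF_monomial (m : Fin 10 →₀ ℕ) (c : F) :
    wmF F e (MvPolynomial.monomial m c) = c • wmap e (MvPolynomial.monomial m 1) := by
  have h : (MvPolynomial.monomial m c : MvPolynomial (Fin 10) F)
      = c • (MvPolynomial.basisMonomials (Fin 10) F) m := by
    rw [MvPolynomial.coe_basisMonomials, MvPolynomial.smul_monomial, smul_eq_mul, mul_one]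
  rw [h, map_smul, wmF, Module.Basis.constr_basis]

omit [IsScalarTower F B B] [SMulCommClass F B B] in
theorem wmF_map (r : MvPolynomial (Fin 10) ℤ) :
    wmF F e (MvPolynomial.map (Int.castRingHom F) r) = wmap e r := by
  induction r using MvPolynomial.induction_on' with
  | monomial m c =>
    rw [MvPolynomial.map_monomial, wmF_monomial, eq_intCast, Int.cast_smul_eq_zsmul, ← map_zsmul]
    congr 1
    rw [MvPolynomial.smul_monomial]; simp
  | add x y hx hy => rw [map_add, map_add, map_add, hx, hy]

omit [AltRing B] in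
theorem Ls_add (s : Fin 8) (x y : B) : Ls e s (x + y) = Ls e s x + Ls e s y := by
  fin_cases s <;> simp [Ls, mul_add]

omit [AltRing B] in
theorem Ls_smul (s : Fin 8) (c : F) (x : B) : Ls e s (c • x) = c • Ls e s x := by
  have h : ∀ (i : Fin 3) (x : B), e i * (c • x) = c • (e i * x) := fun i x => mul_smul_comm _ _ _
  fin_cases s <;> simp only [Ls, h]

/-- normal form -/
theorem PF_nf {y : B} (hy : y ∈ PF F e) :
    ∃ r : Fin 8 → MvPolynomial (Fin 10) F, y = ∑ s, Ls e s (wmF F e (r s)) := by
  induction hy using Submodule.span_induction with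
  | mem x hx =>
    obtain ⟨r, rfl⟩ := PP_nf hx
    exact ⟨fun s => MvPolynomial.map (Int.castRingHom F) (r s), by simp only [wmF_map]⟩
  | zero => exact ⟨0, by simp [Ls_zero']⟩
  | add x y _ _ hx hy =>
    obtain ⟨r, rfl⟩ := hx
    obtain ⟨r', rfl⟩ := hy
    refine ⟨r + r', ?_⟩
    simp [map_add, Ls_add, Finset.sum_add_distrib]
  | smul c x _ hx =>
    obtain ⟨r, rfl⟩ := hx
    refine ⟨c • r, ?_⟩
    simp [map_smul, Ls_smul (F := F), Finset.smul_sum]

section eval
variable {L : Type*} [Field L] [Algebra F L]

omit [Field F] [Module F B] [IsScalarTower F B B] [SMulCommClass F B B] [Algebra F L] in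
theorem wmap_fz (p : Fin 10 → L) (φ : B →ₙ+* Zn L) (hφ : ∀ i, φ (e i) = fz p i)
    (r : MvPolynomial (Fin 10) ℤ) :
    φ (wmap e r) = yz p (MvPolynomial.aeval (iz p) r * (p 0 - p 1)) := by
  have he : (fun j => φ (e j)) = fz p := funext hφ
  let yzH : L →+ Zn L :=
    { toFun := yz p
      map_zero' := by simp [yz, Zn.zero_def]
      map_add' := fun x y => by simp [yz, Zn.add_def, mul_add] }
  induction r using MvPolynomial.induction_on with
  | C a =>
    have h1 : (MvPolynomial.C a : MvPolynomial (Fin 10) ℤ) = a • 1 := by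
      rw [MvPolynomial.C_eq_smul_one]
    have h2 : a • yz p (p 0 - p 1) = yz p (a • (p 0 - p 1)) := (map_zsmul yzH a _).symm
    rw [h1, map_zsmul, map_zsmul, wmap_one, map_asc, hφ, hφ, hφ, asc_fz, h2, map_zsmul,
      map_one, zsmul_eq_mul, zsmul_eq_mul, mul_one]
  | add x y hx hy =>
    rw [map_add, map_add, hx, hy, map_add, add_mul]
    exact (map_add yzH _ _).symm
  | mul_X q i hq =>
    rw [wmap_mul_X, map_opX, hq, he, opX_fz, map_mul, MvPolynomial.aeval_X]
    congr 1; ring

omit [IsScalarTower F B B] [SMulCommClass F B B] in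
theorem wmF_fz (p : Fin 10 → L) (φ : B →ₙₐ[F] Zn L) (hφ : ∀ i, φ (e i) = fz p i)
    (r : MvPolynomial (Fin 10) F) :
    φ (wmF F e r) = yz p (MvPolynomial.aeval (iz p) r * (p 0 - p 1)) := by
  induction r using MvPolynomial.induction_on' with
  | monomial m c =>
    have h1 : φ (wmap e (MvPolynomial.monomial m 1))
        = yz p (MvPolynomial.aeval (iz p) (MvPolynomial.monomial m (1 : ℤ)) * (p 0 - p 1)) :=
      wmap_fz p (NonUnitalRingHomClass.toNonUnitalRingHom φ) hφ _
    rw [wmF_monomial, map_smul, h1, MvPolynomial.aeval_monomial, MvPolynomial.aeval_monomial]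
    simp only [yz, Zn.smul_def, Algebra.smul_def, map_one, one_mul, Zn.mk.injEq, mul_zero, true_and,
      and_true]
    exact ⟨by ring, by ring⟩
  | add x y hx hy =>
    rw [map_add, map_add, hx, hy, map_add, add_mul]
    simp [yz, Zn.add_def, mul_add]

/-- **Kernel theorem**: an element dying in the free associative algebra and at all points of the
family over an algebraically closed field is zero. -/
theorem kernelF [IsAlgClosed L] (hg : GenF F e) (α : B →ₙₐ[F] FAF F) (hα : ∀ i, α (e i) = letF F i)
    {f : B} (hf : α f = 0)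
    (hφ : ∀ p : Fin 10 → L, p 0 - p 1 ≠ 0 → p 4 ≠ 0 → p 9 ≠ 0 →
      ∃ φ : B →ₙₐ[F] Zn L, (∀ i, φ (e i) = fz p i) ∧ φ f = 0) : f = 0 := by
  obtain ⟨r, hr⟩ := PF_nf (ker_alpha hg α hα hf)
  have hr0 : ∀ s, r s = 0 := by
    intro s
    apply alg_indep_iz (L := L)
    intro p p1 p4 p9
    obtain ⟨φ, hφe, hφf⟩ := hφ p p1 p4 p9
    have he : (fun j => φ (e j)) = fz p := funext hφe
    have h0 : ∑ s, Ls (fz p) s
        (yz p (MvPolynomial.aeval (iz p) (r s) * (p 0 - p 1))) = 0 := by
      rw [← hφf, hr, map_sum]
      refine Finset.sum_congr rfl fun s _ => ?_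
      have h2 := map_Ls (NonUnitalRingHomClass.toNonUnitalRingHom φ) e s (wmF F e (r s))
      have h3 : (NonUnitalRingHomClass.toNonUnitalRingHom φ) (wmF F e (r s))
        = yz p (MvPolynomial.aeval (iz p) (r s) * (p 0 - p 1)) := wmF_fz p φ hφe (r s)
      rw [h3] at h2
      rw [← he]
      exact h2.symm
    have := indep_fz p p1 p4 p9 _ h0 s
    exact (mul_eq_zero.mp this).resolve_right p1
  rw [hr]
  apply Finset.sum_eq_zero
  intro s _
  rw [hr0 s, map_zero, Ls_zero']

end eval

end

end Pool.Agent.R696.N3
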