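import Pool.Agent.R696.N3.Lin
import Pool.Agent.Helper928.Nuc.Free
set_option autoImplicit false

/-! Quasi-regular ideals of the free alternative algebra on three generators. -/

namespace Pool.Agent.R696.N3
open Pool.Agent.Helper895.Alt Pool.Agent.Helper928.Nuc.Free

noncomputable section

variable {F : Type} [Field F]

instance : AltRing (FreeAlt F (Fin 3)) where
  altl x y := (FreeAlt.alternative x y).1
  altr x y := (FreeAlt.alternative x y).2

variable (F) in
/-- the free generators -/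
def g3 : Fin 3 → FreeAlt F (Fin 3) := FreeAlt.gen

theorem genF_g3 : GenF F (g3 F) := by
  intro Q hQ hm x
  have h1 : ∀ m : FreeMagma (Fin 3),
      FreeAlt.mk (MonoidAlgebra.single m 1 : FN F (Fin 3)) ∈ Q := by
    intro m
    induction m with
    | ih1 i => exact hQ i
    | ih2 a b ha hb =>
      have : (MonoidAlgebra.single (a * b) 1 : FN F (Fin 3))
          = MonoidAlgebra.single a 1 * MonoidAlgebra.single b 1 := by
        rw [MonoidAlgebra.single_mul_single, one_mul]
      rw [this, FreeAlt.mk_mul]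
      exact hm _ ha _ hb
  obtain ⟨f, rfl⟩ := FreeAlt.mk_surj x
  induction f using MonoidAlgebra.induction_linear with
  | zero => rw [map_zero]; exact Q.zero_mem
  | add a b ha hb => rw [map_add]; exact Q.add_mem ha hb
  | single m n =>
    have : (MonoidAlgebra.single m n : FN F (Fin 3)) = n • MonoidAlgebra.single m 1 := by
      simp
    rw [this, map_smul]
    exact Q.smul_mem n (h1 m)

/-- quasi-regular elements -/
def QuasiRegular {A : Type*} [NonUnitalNonAssocRing A] (f : A) : Prop :=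
  ∃ g : A, f + g = f * g ∧ f + g = g * f

/-! ### the associative part -/

/-- degree homomorphism -/
def Lam : FAF F →ₐ[F] Polynomial (FAF F) :=
  MonoidAlgebra.lift F (Polynomial (FAF F)) (FreeMonoid (Fin 3))
    (FreeMonoid.lift (fun i => Polynomial.C (letF F i) * Polynomial.X))

theorem Lam_single (w : FreeMonoid (Fin 3)) :
    ∃ n : ℕ, Lam (MonoidAlgebra.single w (1 : F)) = Polynomial.monomial n (MonoidAlgebra.single w 1) := by
  rw [Lam, MonoidAlgebra.lift_single, one_smul]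
  induction w using FreeMonoid.inductionOn with
  | one => exact ⟨0, by rw [map_one]; rfl⟩
  | of i =>
    exact ⟨1, by rw [FreeMonoid.lift_eval_of, Polynomial.C_mul_X_eq_monomial]; rfl⟩
  | mul a b ha hb =>
    obtain ⟨n, hn⟩ := ha
    obtain ⟨m, hm⟩ := hb
    exact ⟨n + m, by rw [map_mul, hn, hm, Polynomial.monomial_mul_monomial,
      MonoidAlgebra.single_mul_single, one_mul]⟩

theorem eval_Lam (a : FAF F) : (Lam a).eval 1 = a := by
  induction a using MonoidAlgebra.induction_linear with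
  | zero => rw [map_zero, Polynomial.eval_zero]
  | add a b ha hb => rw [map_add, Polynomial.eval_add, ha, hb]
  | single w c =>
    have h1 : (MonoidAlgebra.single w c : FAF F) = c • MonoidAlgebra.single w 1 := by simp
    obtain ⟨n, hn⟩ := Lam_single (F := F) w
    rw [h1, map_smul, hn, Polynomial.smul_monomial, Polynomial.eval_monomial, one_pow, mul_one]

variable (F) in
/-- the map to the free associative algebra -/
def al : FreeAlt F (Fin 3) →ₙₐ[F] FAF F :=
  FreeAlt.lift (fun a b => ⟨mul_assoc a a b, mul_assoc b a a⟩) (letF F)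

theorem al_g3 (i : Fin 3) : al F (g3 F i) = letF F i := FreeAlt.lift_gen _ _ _

theorem al_coeff (x : FreeAlt F (Fin 3)) : (Lam (al F x)).coeff 0 = 0 := by
  let Q : Submodule F (FreeAlt F (Fin 3)) :=
    { carrier := {x | (Lam (al F x)).coeff 0 = 0}
      zero_mem' := by simp
      add_mem' := fun {a b} (ha : _ = _) (hb : _ = _) => by
        show (Lam (al F (a + b))).coeff 0 = 0
        rw [map_add, map_add, Polynomial.coeff_add, ha, hb, add_zero]
      smul_mem' := fun c a (ha : _ = _) => by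
        show (Lam (al F (c • a))).coeff 0 = 0
        rw [map_smul, map_smul, Polynomial.coeff_smul, ha, smul_zero] }
  refine genF_g3 Q ?_ ?_ x
  · intro i
    show (Lam (al F (g3 F i))).coeff 0 = 0
    rw [al_g3]
    have : Lam (letF F i) = Polynomial.C (letF F i) * Polynomial.X := by
      rw [Lam]
      show (MonoidAlgebra.lift F (Polynomial (FAF F)) (FreeMonoid (Fin 3))) _
        (MonoidAlgebra.single (FreeMonoid.of i) 1) = _
      rw [MonoidAlgebra.lift_single, one_smul, FreeMonoid.lift_eval_of]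
    rw [this, Polynomial.mul_coeff_zero, Polynomial.coeff_X_zero, mul_zero]
  · intro a (ha : _ = _) b hb
    show (Lam (al F (a * b))).coeff 0 = 0
    rw [map_mul, map_mul, Polynomial.mul_coeff_zero, ha, zero_mul]

/-- a quasi-regular element dies in the free associative algebra -/
theorem al_qr {f : FreeAlt F (Fin 3)} (hf : QuasiRegular f) : al F f = 0 := by
  obtain ⟨g, h1, h2⟩ := hf
  have e1 : al F f + al F g = al F f * al F g := by rw [← map_add, h1, map_mul]
  have e2 : al F f + al F g = al F g * al F f := by rw [← map_add, h2, map_mul]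
  have u1 : (1 - al F f) * (1 - al F g) = 1 := by
    rw [sub_mul, mul_sub, mul_sub, ← e1]; simp
  have u2 : (1 - al F g) * (1 - al F f) = 1 := by
    rw [sub_mul, mul_sub, mul_sub, ← e2]; simp
  have hu : IsUnit (Lam (1 - al F f)) := by
    refine ⟨⟨Lam (1 - al F f), Lam (1 - al F g), ?_, ?_⟩, rfl⟩
    · rw [← map_mul, u1, map_one]
    · rw [← map_mul, u2, map_one]
  obtain ⟨r, _, hr⟩ := Polynomial.isUnit_iff.mp hu
  have h3 : Lam (al F f) = Polynomial.C (1 - r) := by
    rw [Polynomial.C_sub, hr, map_sub, map_one, map_one]; abel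
  have h4 : 1 - r = 0 := by
    have := al_coeff f
    rw [h3, Polynomial.coeff_C_zero] at this
    exact this
  rw [← eval_Lam (al F f), h3, h4]; simp

/-! ### the octonion part -/

variable (F) in
/-- the algebraic closure -/
abbrev Lc := AlgebraicClosure F

/-- points -/
def ph (p : Fin 10 → Lc F) : FreeAlt F (Fin 3) →ₙₐ[F] Zn (Lc F) :=
  FreeAlt.lift Zn.alt' (fz p)

theorem ph_g3 (p : Fin 10 → Lc F) (i : Fin 3) : ph p (g3 F i) = fz p i := FreeAlt.lift_gen _ _ _

variable (F) in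
/-- polynomial ring -/
abbrev Rp := MvPolynomial (Fin 10) (Lc F)

variable (F) in
/-- the generic point -/
def Ph : FreeAlt F (Fin 3) →ₙₐ[F] Zn (Rp F) :=
  FreeAlt.lift Zn.alt' (fz MvPolynomial.X)

theorem Ph_g3 (i : Fin 3) : Ph F (g3 F i) = fz MvPolynomial.X i := FreeAlt.lift_gen _ _ _

/-- evaluation -/
def evZ (p : Fin 10 → Lc F) : Zn (Rp F) →ₙ+* Zn (Lc F) := Zn.map (MvPolynomial.eval p)

theorem evZ_Ph (p : Fin 10 → Lc F) (x : FreeAlt F (Fin 3)) : evZ p (Ph F x) = ph p x := by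
  have hs : ∀ (c : F) (y : Zn (Rp F)), evZ p (c • y) = c • evZ p y := by
    intro c y
    have h0 : ∀ q : Rp F, MvPolynomial.eval p (c • q) = c • MvPolynomial.eval p q := by
      intro q
      rw [Algebra.smul_def, Algebra.smul_def, map_mul]
      congr 1
      have : (algebraMap F (Rp F)) c = MvPolynomial.C (algebraMap F (Lc F) c) := rfl
      rw [this, MvPolynomial.eval_C]
    simp only [Zn.map_apply, Zn.smul_def, h0, evZ]
  let Q : Submodule F (FreeAlt F (Fin 3)) :=
    { carrier := {x | evZ p (Ph F x) = ph p x}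
      zero_mem' := by simp
      add_mem' := fun {a b} (ha : _ = _) (hb : _ = _) => by
        show evZ p (Ph F (a + b)) = ph p (a + b)
        rw [map_add, map_add, map_add, ha, hb]
      smul_mem' := fun c a (ha : _ = _) => by
        show evZ p (Ph F (c • a)) = ph p (c • a)
        rw [map_smul (Ph F), hs, ha, map_smul (ph p)] }
  refine genF_g3 Q ?_ ?_ x
  · intro i
    show evZ p (Ph F (g3 F i)) = ph p (g3 F i)
    rw [Ph_g3, ph_g3]
    fin_cases i <;> simp [evZ, Zn.map_apply, fz]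
  · intro a (ha : _ = _) b (hb : _ = _)
    show evZ p (Ph F (a * b)) = ph p (a * b)
    rw [map_mul, map_mul, map_mul, ha, hb]

/-- at the origin the image is nilpotent -/
theorem ph_zero (x : FreeAlt F (Fin 3)) :
    (ph 0 x).a = 0 ∧ (ph 0 x).b = 0 ∧ (ph 0 x).u3 = 0 ∧ (ph 0 x).v1 = 0 ∧ (ph 0 x).v2 = 0 := by
  let Q : Submodule F (FreeAlt F (Fin 3)) :=
    { carrier := {x | (ph 0 x).a = 0 ∧ (ph 0 x).b = 0 ∧ (ph 0 x).u3 = 0 ∧ (ph 0 x).v1 = 0 ∧
        (ph 0 x).v2 = 0}
      zero_mem' := by simp [Zn.zero_def]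
      add_mem' := fun {a b} ha hb => by
        obtain ⟨a1, a2, a3, a4, a5⟩ := ha
        obtain ⟨b1, b2, b3, b4, b5⟩ := hb
        show _ ∧ _
        simp only [map_add, Zn.add_def]
        simp [a1, a2, a3, a4, a5, b1, b2, b3, b4, b5]
      smul_mem' := fun c a ha => by
        obtain ⟨a1, a2, a3, a4, a5⟩ := ha
        show _ ∧ _
        simp only [map_smul, Zn.smul_def]
        simp [a1, a2, a3, a4, a5] }
  refine genF_g3 Q ?_ ?_ x
  · intro i
    show _ ∧ _
    rw [ph_g3]
    fin_cases i <;> simp [fz]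
  · intro a ha b hb
    obtain ⟨a1, a2, a3, a4, a5⟩ := ha
    obtain ⟨b1, b2, b3, b4, b5⟩ := hb
    show _ ∧ _
    simp only [map_mul, Zn.mul_def]
    simp [a1, a2, a3, a4, a5, b1, b2, b3, b4, b5]

theorem eval_tr (p : Fin 10 → Lc F) (x : Zn (Rp F)) :
    MvPolynomial.eval p (Zn.tr x) = Zn.tr (evZ p x) := by
  simp [Zn.tr, evZ, Zn.map_apply]

theorem eval_nm (p : Fin 10 → Lc F) (x : Zn (Rp F)) :
    MvPolynomial.eval p (Zn.nm x) = Zn.nm (evZ p x) := by
  simp [Zn.nm, evZ, Zn.map_apply]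

/-- trace and norm of quasi-regular elements agree -/
theorem tr_eq_nm {f : FreeAlt F (Fin 3)} (hf : QuasiRegular f) :
    Zn.tr (Ph F f) = Zn.nm (Ph F f) := by
  obtain ⟨g, h1, h2⟩ := hf
  have e1 : Ph F f + Ph F g = Ph F f * Ph F g := by rw [← map_add, h1, map_mul]
  have u1 : (1 - Ph F f) * (1 - Ph F g) = 1 := by
    rw [sub_mul, mul_sub, mul_sub, ← e1, Zn.one_mul', Zn.one_mul', Zn.mul_one']; abel
  have u2 : Zn.nm (1 - Ph F f) * Zn.nm (1 - Ph F g) = 1 := by
    rw [← Zn.nm_mul, u1, Zn.nm_one]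
  have hu : IsUnit (Zn.nm (1 - Ph F f)) := IsUnit.of_mul_eq_one _ u2
  obtain ⟨r, _, hr⟩ := MvPolynomial.isUnit_iff_eq_C_of_isReduced.mp hu
  rw [Zn.nm_one_sub] at hr
  have h3 := congrArg (MvPolynomial.eval (0 : Fin 10 → Lc F)) hr
  rw [map_add, map_sub, map_one, eval_tr, eval_nm, evZ_Ph, MvPolynomial.eval_C] at h3
  obtain ⟨a1, a2, a3, a4, a5⟩ := ph_zero f
  have h4 : r = 1 := by
    rw [← h3]; simp [Zn.tr, Zn.nm, a1, a2, a3, a4, a5]
  rw [h4, MvPolynomial.C_1] at hr
  linear_combination hr - 2 * hr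

variable (F) in
/-- a central element -/
def gam : FreeAlt F (Fin 3) :=
  (g3 F 0 * g3 F 1 - g3 F 1 * g3 F 0) * (g3 F 0 * g3 F 1 - g3 F 1 * g3 F 0)

variable (F) in
/-- its value -/
def sg : Rp F := -((MvPolynomial.X 0 - MvPolynomial.X 1) ^ 2 * MvPolynomial.X 4)

theorem Ph_gam : Ph F (gam F) = ⟨sg F, 0, 0, 0, 0, 0, 0, sg F⟩ := by
  simp only [gam, map_mul, map_sub, Ph_g3]
  simp only [fz, Zn.mul_def, Zn.sub_def, sg, Zn.mk.injEq]
  refine ⟨?_, ?_, ?_, ?_, ?_, ?_, ?_, ?_⟩ <;> ring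

theorem sg_ne_zero : sg F ≠ 0 := by
  intro h
  have := congrArg (MvPolynomial.eval (fun i : Fin 10 => if i = 1 then (0 : Lc F) else 1)) h
  simp [sg] at this

theorem sg_ne_one : 1 - sg F ≠ 0 := by
  intro h
  have := congrArg (MvPolynomial.eval (0 : Fin 10 → Lc F)) h
  simp [sg] at this

/-- the trace of an element `f` vanishes if `f` and `gam * f` are quasi-regular -/
theorem tr_zero {f : FreeAlt F (Fin 3)} (hf : QuasiRegular f) (hf' : QuasiRegular (gam F * f)) :
    Zn.tr (Ph F f) = 0 := by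
  have h1 := tr_eq_nm hf
  have h2 := tr_eq_nm hf'
  rw [map_mul, Ph_gam] at h2
  have h3 : Zn.tr ((⟨sg F, 0, 0, 0, 0, 0, 0, sg F⟩ : Zn (Rp F)) * Ph F f) = sg F * Zn.tr (Ph F f) := by
    simp only [Zn.tr, Zn.mul_def]; ring
  have h4 : Zn.nm ((⟨sg F, 0, 0, 0, 0, 0, 0, sg F⟩ : Zn (Rp F)) * Ph F f)
      = sg F ^ 2 * Zn.nm (Ph F f) := by
    rw [Zn.nm_mul]; simp only [Zn.nm]; ring
  rw [h3, h4, ← h1] at h2
  have h5 : sg F * (1 - sg F) * Zn.tr (Ph F f) = 0 := by linear_combination h2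
  exact (mul_eq_zero.mp h5).resolve_left (mul_ne_zero sg_ne_zero sg_ne_one)

/-- **The Zhevlakov radical of the free alternative algebra on three generators is zero.** -/
theorem qr_ideal (I : TwoSidedIdeal (FreeAlt F (Fin 3))) (hI : ∀ f ∈ I, QuasiRegular f) : I = ⊥ := by
  rw [eq_bot_iff]
  intro f hf
  rw [TwoSidedIdeal.mem_bot]
  refine kernelF (L := Lc F) genF_g3 (al F) al_g3 (al_qr (hI f hf)) ?_
  intro p p1 p4 p9
  refine ⟨ph p, ph_g3 p, ?_⟩
  apply trace_fz p p1 p4 p9
  intro s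
  have h1 : ∀ b : FreeAlt F (Fin 3), Zn.tr (ph p f * ph p b) = 0 := by
    intro b
    have hb : f * b ∈ I := I.mul_mem_right f b hf
    have h2 := tr_zero (hI _ hb) (hI _ (I.mul_mem_left _ _ hb))
    have h3 := congrArg (MvPolynomial.eval p) h2
    rw [eval_tr, evZ_Ph, map_mul, map_zero] at h3
    exact h3
  have h2 := h1 (Ls (g3 F) s (asc (g3 F 0) (g3 F 1) (g3 F 2)))
  have h3 := map_Ls (NonUnitalRingHomClass.toNonUnitalRingHom (ph p)) (g3 F) s (asc (g3 F 0) (g3 F 1) (g3 F 2))
  have h4 := map_asc (NonUnitalRingHomClass.toNonUnitalRingHom (ph p)) (g3 F 0) (g3 F 1) (g3 F 2)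
  have h5 : (fun j => (NonUnitalRingHomClass.toNonUnitalRingHom (ph p)) (g3 F j)) = fz p := funext (ph_g3 p)
  have h6 : ∀ j, (NonUnitalRingHomClass.toNonUnitalRingHom (ph p)) (g3 F j) = fz p j := ph_g3 p
  rw [h4, h5, h6, h6, h6, asc_fz', Ls_smul] at h3
  have h7 : ph p (Ls (g3 F) s (asc (g3 F 0) (g3 F 1) (g3 F 2)))
    = (p 0 - p 1) • Ls (fz p) s (yz p 1) := h3
  rw [h7] at h2
  have h8 : Zn.tr (ph p f * ((p 0 - p 1) • Ls (fz p) s (yz p 1)))
      = (p 0 - p 1) * Zn.tr (ph p f * Ls (fz p) s (yz p 1)) := by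
    simp only [Zn.tr, Zn.mul_def, Zn.smul_def, smul_eq_mul]; ring
  rw [h8] at h2
  exact (mul_eq_zero.mp h2).resolve_left p1

end

end Pool.Agent.R696.N3
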