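import Pool.Agent.Helper895.AltFree
set_option autoImplicit false

/-! Zorn's vector matrices over a commutative ring. -/

namespace Pool.Agent.R696.N3
open Pool.Agent.Helper895.Alt

/-- Zorn vector matrices -/
@[ext] structure Zn (K : Type*) where
  a : K
  u1 : K
  u2 : K
  u3 : K
  v1 : K
  v2 : K
  v3 : K
  b : K

namespace Zn

variable {K : Type*} [CommRing K]

instance : Zero (Zn K) := ⟨⟨0, 0, 0, 0, 0, 0, 0, 0⟩⟩
instance : One (Zn K) := ⟨⟨1, 0, 0, 0, 0, 0, 0, 1⟩⟩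
instance : Add (Zn K) := ⟨fun x y => ⟨x.a + y.a, x.u1 + y.u1, x.u2 + y.u2, x.u3 + y.u3,
  x.v1 + y.v1, x.v2 + y.v2, x.v3 + y.v3, x.b + y.b⟩⟩
instance : Neg (Zn K) := ⟨fun x => ⟨-x.a, -x.u1, -x.u2, -x.u3, -x.v1, -x.v2, -x.v3, -x.b⟩⟩
instance : Mul (Zn K) := ⟨fun x y =>
  ⟨x.a * y.a + (x.u1 * y.v1 + x.u2 * y.v2 + x.u3 * y.v3),
   x.a * y.u1 + y.b * x.u1 - (x.v2 * y.v3 - x.v3 * y.v2),
   x.a * y.u2 + y.b * x.u2 - (x.v3 * y.v1 - x.v1 * y.v3),
   x.a * y.u3 + y.b * x.u3 - (x.v1 * y.v2 - x.v2 * y.v1),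
   y.a * x.v1 + x.b * y.v1 + (x.u2 * y.u3 - x.u3 * y.u2),
   y.a * x.v2 + x.b * y.v2 + (x.u3 * y.u1 - x.u1 * y.u3),
   y.a * x.v3 + x.b * y.v3 + (x.u1 * y.u2 - x.u2 * y.u1),
   x.b * y.b + (x.v1 * y.u1 + x.v2 * y.u2 + x.v3 * y.u3)⟩⟩

theorem zero_def : (0 : Zn K) = ⟨0, 0, 0, 0, 0, 0, 0, 0⟩ := rfl
theorem one_def : (1 : Zn K) = ⟨1, 0, 0, 0, 0, 0, 0, 1⟩ := rfl
theorem add_def (x y : Zn K) : x + y = ⟨x.a + y.a, x.u1 + y.u1, x.u2 + y.u2, x.u3 + y.u3,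
  x.v1 + y.v1, x.v2 + y.v2, x.v3 + y.v3, x.b + y.b⟩ := rfl
theorem neg_def (x : Zn K) :
    -x = ⟨-x.a, -x.u1, -x.u2, -x.u3, -x.v1, -x.v2, -x.v3, -x.b⟩ := rfl
theorem mul_def (x y : Zn K) : x * y =
  ⟨x.a * y.a + (x.u1 * y.v1 + x.u2 * y.v2 + x.u3 * y.v3),
   x.a * y.u1 + y.b * x.u1 - (x.v2 * y.v3 - x.v3 * y.v2),
   x.a * y.u2 + y.b * x.u2 - (x.v3 * y.v1 - x.v1 * y.v3),
   x.a * y.u3 + y.b * x.u3 - (x.v1 * y.v2 - x.v2 * y.v1),
   y.a * x.v1 + x.b * y.v1 + (x.u2 * y.u3 - x.u3 * y.u2),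
   y.a * x.v2 + x.b * y.v2 + (x.u3 * y.u1 - x.u1 * y.u3),
   y.a * x.v3 + x.b * y.v3 + (x.u1 * y.u2 - x.u2 * y.u1),
   x.b * y.b + (x.v1 * y.u1 + x.v2 * y.u2 + x.v3 * y.u3)⟩ := rfl

instance : NonUnitalNonAssocRing (Zn K) where
  add_assoc x y z := by simp only [add_def, mk.injEq]; refine ⟨?_, ?_, ?_, ?_, ?_, ?_, ?_, ?_⟩ <;> ring
  zero_add x := by ext <;> simp [add_def, zero_def]
  add_zero x := by ext <;> simp [add_def, zero_def]
  nsmul := nsmulRec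
  zsmul := zsmulRec
  neg_add_cancel x := by ext <;> simp [add_def, zero_def, neg_def]
  add_comm x y := by simp only [add_def, mk.injEq]; refine ⟨?_, ?_, ?_, ?_, ?_, ?_, ?_, ?_⟩ <;> ring
  left_distrib x y z := by
    simp only [add_def, mul_def, mk.injEq]; refine ⟨?_, ?_, ?_, ?_, ?_, ?_, ?_, ?_⟩ <;> ring
  right_distrib x y z := by
    simp only [add_def, mul_def, mk.injEq]; refine ⟨?_, ?_, ?_, ?_, ?_, ?_, ?_, ?_⟩ <;> ring
  zero_mul x := by ext <;> simp [mul_def, zero_def]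
  mul_zero x := by ext <;> simp [mul_def, zero_def]

instance : AltRing (Zn K) where
  altl x y := by
    simp only [mul_def, mk.injEq]; refine ⟨?_, ?_, ?_, ?_, ?_, ?_, ?_, ?_⟩ <;> ring
  altr x y := by
    simp only [mul_def, mk.injEq]; refine ⟨?_, ?_, ?_, ?_, ?_, ?_, ?_, ?_⟩ <;> ring

theorem sub_def (x y : Zn K) : x - y = ⟨x.a - y.a, x.u1 - y.u1, x.u2 - y.u2, x.u3 - y.u3,
    x.v1 - y.v1, x.v2 - y.v2, x.v3 - y.v3, x.b - y.b⟩ := by
  rw [sub_eq_add_neg, neg_def, add_def]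
  simp only [mk.injEq]; refine ⟨?_, ?_, ?_, ?_, ?_, ?_, ?_, ?_⟩ <;> ring

theorem one_mul' (x : Zn K) : 1 * x = x := by
  rw [mul_def, one_def]; ext <;> simp
theorem mul_one' (x : Zn K) : x * 1 = x := by
  rw [mul_def, one_def]; ext <;> simp

/-- trace -/
def tr (x : Zn K) : K := x.a + x.b
/-- norm -/
def nm (x : Zn K) : K := x.a * x.b - (x.u1 * x.v1 + x.u2 * x.v2 + x.u3 * x.v3)

theorem nm_mul (x y : Zn K) : nm (x * y) = nm x * nm y := by
  simp only [nm, mul_def]; ring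
theorem nm_one_sub (x : Zn K) : nm (1 - x) = 1 - tr x + nm x := by
  simp only [nm, tr, sub_def, one_def]; ring
theorem nm_one : nm (1 : Zn K) = 1 := by simp [nm, one_def]

section smul
variable {S : Type*} [CommRing S] [Algebra S K]

instance : SMul S (Zn K) := ⟨fun s x => ⟨s • x.a, s • x.u1, s • x.u2, s • x.u3, s • x.v1, s • x.v2,
  s • x.v3, s • x.b⟩⟩

theorem smul_def (s : S) (x : Zn K) : s • x = ⟨s • x.a, s • x.u1, s • x.u2, s • x.u3, s • x.v1,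
  s • x.v2, s • x.v3, s • x.b⟩ := rfl

instance : Module S (Zn K) where
  one_smul x := by rw [smul_def]; ext <;> simp
  mul_smul r s x := by simp only [smul_def, mul_smul]
  smul_zero r := by simp only [smul_def, zero_def, smul_zero]
  smul_add r x y := by simp only [smul_def, add_def, smul_add]
  add_smul r s x := by simp only [smul_def, add_def, add_smul]
  zero_smul x := by simp only [smul_def, zero_def, zero_smul]

instance : IsScalarTower S (Zn K) (Zn K) := ⟨by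
  intro r x y
  simp only [smul_eq_mul, smul_def, mul_def, Algebra.smul_def, mk.injEq]
  refine ⟨?_, ?_, ?_, ?_, ?_, ?_, ?_, ?_⟩ <;> ring⟩

instance : SMulCommClass S (Zn K) (Zn K) := ⟨by
  intro r x y
  simp only [smul_eq_mul, smul_def, mul_def, Algebra.smul_def, mk.injEq]
  refine ⟨?_, ?_, ?_, ?_, ?_, ?_, ?_, ?_⟩ <;> ring⟩

end smul

/-- map on entries -/
def map {K L : Type*} [CommRing K] [CommRing L] (f : K →+* L) : Zn K →ₙ+* Zn L where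
  toFun x := ⟨f x.a, f x.u1, f x.u2, f x.u3, f x.v1, f x.v2, f x.v3, f x.b⟩
  map_zero' := by simp [zero_def]
  map_add' x y := by simp [add_def]
  map_mul' x y := by simp [mul_def]

theorem map_apply {K L : Type*} [CommRing K] [CommRing L] (f : K →+* L) (x : Zn K) :
    map f x = ⟨f x.a, f x.u1, f x.u2, f x.u3, f x.v1, f x.v2, f x.v3, f x.b⟩ := rfl

theorem alt' (x y : Zn K) : (x * x) * y = x * (x * y) ∧ (y * x) * x = y * (x * x) :=
  ⟨AltRing.altl x y, AltRing.altr x y⟩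

end Zn

end Pool.Agent.R696.N3
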